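import Pool.Agent.Helper40.PR.Defs3
import Pool.Agent.Helper65.PR.TK4A
import Pool.Agent.Helper55.PR.TK4B
import Pool.Agent.Helper59.PR.TK2
import Pool.Agent.Helper54.PR.TK10
import Pool.Agent.Helper26.PR.TK6

/-! E1: tests for the skew Lie product (MP_339e9c_an) -/

set_option autoImplicit false

namespace PR

open ContinuousLinearMap InnerProductSpace Complex

open scoped ComplexConjugate

section e

variable {H : Type*} [NormedAddCommGroup H] [InnerProductSpace ℂ H] [CompleteSpace H]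

namespace E1Aux

theorem skb_apply (T S : H →L[ℂ] H) (z : H) : skb T S z = T (S z) - S (adjoint T z) := rfl

theorem skb_po (T : H →L[ℂ] H) (x y : H) :
    skb T (po x y) = rk (T x) (innerSL ℂ y) + rk (-x) (innerSL ℂ (T y)) := by
  ext z
  rw [skb_apply, po_apply, po_apply, map_smul, add_apply, rk_apply, rk_apply,
    innerSL_apply_apply, innerSL_apply_apply, adjoint_inner_right, smul_neg, sub_eq_add_neg]

theorem adjoint_po (x y : H) : adjoint (po x y) = po y x := by
  refine ContinuousLinearMap.ext fun z => ext_inner_left ℂ fun w => ?_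
  rw [adjoint_inner_right, po_apply, po_apply, inner_smul_left, inner_smul_right,
    inner_conj_symm, mul_comm]

theorem po_skb (T : H →L[ℂ] H) (x y : H) :
    skb (po x y) T = rk x (innerSL ℂ (adjoint T y)) + rk (-(T y)) (innerSL ℂ x) := by
  ext z
  rw [skb_apply, adjoint_po, po_apply, po_apply, map_smul, add_apply, rk_apply, rk_apply,
    innerSL_apply_apply, innerSL_apply_apply, adjoint_inner_left, smul_neg, sub_eq_add_neg]

theorem sr_adjoint_le (A : H →L[ℂ] H) : sr (adjoint A) ≤ sr A := by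
  refine sr_le (sr_nonneg A) fun l hl => ?_
  have h1 : star l ∈ spectrum ℂ A := by
    have h2 : l ∈ spectrum ℂ (star A) := hl
    rw [spectrum.map_star, Set.mem_star] at h2
    exact h2
  have h3 := norm_le_sr_of_mem h1
  rwa [norm_star] at h3

theorem sr_adjoint (A : H →L[ℂ] H) : sr (adjoint A) = sr A := by
  refine le_antisymm (sr_adjoint_le A) ?_
  have h := sr_adjoint_le (adjoint A)
  rwa [adjoint_adjoint] at h

theorem adjoint_mul (A B : H →L[ℂ] H) : adjoint (A * B) = adjoint B * adjoint A :=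
  star_mul A B

theorem adjoint_skb (T S : H →L[ℂ] H) : adjoint (skb T (adjoint S)) = -skb T S := by
  unfold skb
  rw [map_sub, adjoint_mul, adjoint_mul, adjoint_adjoint, adjoint_adjoint, neg_sub]

theorem sr_skew {A : H →L[ℂ] H} (hA : adjoint A = -A) : sr A = ‖A‖ := by
  have h : IsStarNormal A := ⟨by
    change Commute (adjoint A) A
    rw [hA]
    exact (Commute.refl A).neg_left⟩
  unfold sr
  rw [IsStarNormal.spectralRadius_eq_nnnorm A]
  rfl

theorem eq_po_smul_of {T : H →L[ℂ] H} {x : H} (hx : ‖x‖ = 1)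
    (h : T * po x x = po x x * T) : T x = inner ℂ x (T x) • x := by
  have h1 := congrArg (fun A : H →L[ℂ] H => A x) h
  have h2 : T (inner ℂ x x • x) = inner ℂ x (T x) • x := h1
  rw [inner_self_eq_norm_sq_to_K, hx] at h2
  simpa using h2

/-- multiples of unit vectors -/
theorem exists_unit (x : H) (hx : x ≠ 0) : ∃ u : H, ‖u‖ = 1 ∧ x = (‖x‖ : ℂ) • u := by
  have h0 : (‖x‖ : ℂ) ≠ 0 := by exact_mod_cast norm_ne_zero_iff.2 hx
  refine ⟨(‖x‖ : ℂ)⁻¹ • x, ?_, ?_⟩
  · rw [norm_smul, norm_inv, Complex.norm_real, norm_norm, inv_mul_cancel₀ (norm_ne_zero_iff.2 hx)]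
  · rw [smul_smul, mul_inv_cancel₀ h0, one_smul]

end E1Aux

open E1Aux

/-- `skb T (po x y) = po (T x) y - po x (T y)`. -/
theorem e_test_po (T : H →L[ℂ] H) (x y : H) :
    sr (skb T (po x y)) =
      Rt (inner ℂ y (T x) - inner ℂ (T y) x)
        (inner ℂ y x * inner ℂ (T y) (T x) - inner ℂ y (T x) * inner ℂ (T y) x) := by
  rw [skb_po, sr_rk_add_rk]
  simp only [innerSL_apply_apply, inner_neg_right]
  congr 1
  ring

/-- `skb (po x y) T = po x (T† y) - po (T y) x`. -/
theorem e_po_test (T : H →L[ℂ] H) (x y : H) :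
    sr (skb (po x y) T) =
      Rt (inner ℂ y (T x) - inner ℂ x (T y))
        (inner ℂ x x * inner ℂ y (T (T y)) - inner ℂ y (T x) * inner ℂ x (T y)) := by
  rw [po_skb, sr_rk_add_rk]
  simp only [innerSL_apply_apply, inner_neg_right, adjoint_inner_left]
  congr 1
  ring

/-- orthogonal vectors, second slot -/
theorem e_test_po_orth (T : H →L[ℂ] H) {x y : H} (h : inner ℂ x y = 0) :
    sr (skb T (po x y)) = max ‖inner ℂ y (T x)‖ ‖inner ℂ x (T y)‖ := by
  have h' : inner ℂ y x = 0 := by rw [← inner_conj_symm, h, map_zero]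
  rw [e_test_po, h', zero_mul, zero_sub,
    Rt_eq (l1 := inner ℂ y (T x)) (l2 := -inner ℂ (T y) x) (by ring) (by ring),
    norm_neg, ← inner_conj_symm (T y) x, Complex.norm_conj]

/-- `e_po_test` with `x = y`: trace `0`. -/
theorem e_P_test (T : H →L[ℂ] H) {x : H} (hx : ‖x‖ = 1) :
    sr (skb (po x x) T) ^ 2 = ‖inner ℂ x (T (T x)) - inner ℂ x (T x) ^ 2‖ := by
  have h1 : inner ℂ x x = (1 : ℂ) := by rw [inner_self_eq_norm_sq_to_K, hx]; simp
  rw [e_po_test, sub_self, Rt_zero_left, Real.sq_sqrt (norm_nonneg _), h1, one_mul, sq]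

/-- `skb (I • P) T = I • (P T + T P)`; the roots are `I (s1 ± √s2)`. -/
theorem e_iP_test (T : H →L[ℂ] H) {x : H} (hx : ‖x‖ = 1) :
    sr (skb (I • po x x) T) =
      Rt (2 * inner ℂ x (T x)) (inner ℂ x (T x) ^ 2 - inner ℂ x (T (T x))) := by
  have h1 : inner ℂ x x = (1 : ℂ) := by rw [inner_self_eq_norm_sq_to_K, hx]; simp
  have h2 : skb (I • po x x) T =
      I • (rk x (innerSL ℂ (adjoint T x)) + rk (T x) (innerSL ℂ x)) := by
    ext z
    rw [skb_apply, map_smulₛₗ, adjoint_po]
    simp only [smul_apply, add_apply, rk_apply, innerSL_apply_apply, po_apply, map_smul,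
      adjoint_inner_left, Complex.conj_I, neg_smul, neg_apply, sub_neg_eq_add, smul_add, map_neg]
  rw [h2, sr_smul, Complex.norm_I, one_mul, sr_rk_add_rk]
  simp only [innerSL_apply_apply, adjoint_inner_left, h1]
  congr 1
  · ring
  · ring

/-- trace `2 I Im s1`, determinant `‖T x‖² - ‖s1‖²`, roots `I (Im s1 ± √(‖T x‖² - (Re s1)²))`. -/
theorem e_test_P (T : H →L[ℂ] H) {x : H} (hx : ‖x‖ = 1) :
    sr (skb T (po x x)) =
      |(inner ℂ x (T x)).im| + √(‖T x‖ ^ 2 - (inner ℂ x (T x)).re ^ 2) := by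
  have h1 : inner ℂ x x = (1 : ℂ) := by rw [inner_self_eq_norm_sq_to_K, hx]; simp
  set s : ℂ := inner ℂ x (T x) with hs
  have h2 : inner ℂ (T x) x = conj s := by rw [hs, inner_conj_symm]
  have h3 : inner ℂ (T x) (T x) = ((‖T x‖ ^ 2 : ℝ) : ℂ) := by
    rw [inner_self_eq_norm_sq_to_K]; simp
  have hle : s.re ^ 2 ≤ ‖T x‖ ^ 2 := by
    have h4 : ‖s‖ ≤ ‖x‖ * ‖T x‖ := norm_inner_le_norm x (T x)
    rw [hx, one_mul] at h4
    have h5 : |s.re| ≤ ‖s‖ := Complex.abs_re_le_norm s
    rw [← sq_abs s.re]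
    exact pow_le_pow_left₀ (abs_nonneg _) (h5.trans h4) 2
  set r : ℝ := √(‖T x‖ ^ 2 - s.re ^ 2) with hr
  have hr0 : 0 ≤ r := Real.sqrt_nonneg _
  have hr2 : r ^ 2 = ‖T x‖ ^ 2 - s.re ^ 2 := Real.sq_sqrt (sub_nonneg.2 hle)
  rw [e_test_po, ← hs, h1, h2, h3, one_mul,
    Rt_eq (l1 := I * ((s.im + r : ℝ) : ℂ)) (l2 := I * ((s.im - r : ℝ) : ℂ))]
  · rw [norm_mul, norm_mul, Complex.norm_I, one_mul, one_mul, Complex.norm_real, Complex.norm_real,
      Real.norm_eq_abs, Real.norm_eq_abs]
    rcases le_total 0 s.im with h | h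
    · rw [abs_of_nonneg h, abs_of_nonneg (add_nonneg h hr0), max_eq_left]
      rw [abs_le]
      constructor <;> linarith
    · rw [abs_of_nonpos h, abs_of_nonpos (a := s.im - r) (by linarith), max_eq_right]
      · ring
      · rw [abs_le]
        constructor <;> linarith
  · apply Complex.ext <;> simp
  · have h6 : (s * conj s) = ((s.re ^ 2 + s.im ^ 2 : ℝ) : ℂ) := by
      rw [Complex.mul_conj, Complex.normSq_apply]
      push_cast
      ring
    rw [h6]
    have h7 : ((‖T x‖ ^ 2 : ℝ) : ℂ) = ((r ^ 2 + s.re ^ 2 : ℝ) : ℂ) := by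
      rw [hr2]
      push_cast
      ring
    rw [h7]
    push_cast
    linear_combination ((s.im : ℂ) ^ 2 - (r : ℂ) ^ 2) * Complex.I_sq

theorem e_test_sa (T : H →L[ℂ] H) {S : H →L[ℂ] H} (hS : IsSelfAdjoint S) :
    sr (skb T S) = ‖skb T S‖ := by
  apply sr_skew
  have h := adjoint_skb T S
  have h2 : adjoint S = S := hS
  rwa [h2] at h

/-- `(T S† - S† T†)† = -(T S - S T†)` -/
theorem e_adj_right (T S : H →L[ℂ] H) : sr (skb T (adjoint S)) = sr (skb T S) := by
  rw [← sr_adjoint, adjoint_skb, sr_neg]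

theorem e_smul_right (T S : H →L[ℂ] H) (c : ℂ) : sr (skb T (c • S)) = ‖c‖ * sr (skb T S) := by
  rw [← sr_smul]
  congr 1
  unfold skb
  rw [mul_smul_comm, smul_mul_assoc, smul_sub]

theorem e_add_real_left (T S : H →L[ℂ] H) (t : ℝ) :
    skb (T + (t : ℂ) • (1 : H →L[ℂ] H)) S = skb T S := by
  have h1 : adjoint (T + (t : ℂ) • (1 : H →L[ℂ] H)) = adjoint T + (t : ℂ) • (1 : H →L[ℂ] H) := by
    have h2 : adjoint (1 : H →L[ℂ] H) = 1 := star_one _
    rw [map_add, map_smulₛₗ, h2, Complex.conj_ofReal]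
  unfold skb
  rw [h1, add_mul, mul_add, smul_mul_assoc, one_mul, mul_smul_comm, mul_one]
  abel

theorem e_neg_left (T S : H →L[ℂ] H) : sr (skb (-T) S) = sr (skb T S) := by
  rw [← sr_neg (skb T S)]
  congr 1
  unfold skb
  rw [map_neg, neg_mul, mul_neg]
  abel

theorem e_scalar_left (z : ℂ) (S : H →L[ℂ] H) :
    sr (skb (z • (1 : H →L[ℂ] H)) S) = 2 * |z.im| * sr S := by
  have h2 : adjoint (1 : H →L[ℂ] H) = 1 := star_one _
  have h : skb (z • (1 : H →L[ℂ] H)) S = (z - conj z) • S := by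
    unfold skb
    rw [map_smulₛₗ, h2, smul_mul_assoc, one_mul, mul_smul_comm, mul_one, sub_smul]
  rw [h, sr_smul, Complex.sub_conj, norm_mul, Complex.norm_I, mul_one, Complex.norm_real,
    Real.norm_eq_abs, abs_mul, abs_two]

theorem e_scalar_right (T : H →L[ℂ] H) (z : ℂ) :
    sr (skb T (z • (1 : H →L[ℂ] H))) = ‖z‖ * ‖T - adjoint T‖ := by
  rw [e_smul_right, e_test_sa T (IsSelfAdjoint.one _)]
  unfold skb
  rw [mul_one, one_mul]

/-- null elements. `S = 1` gives `T = T†`, then self-adjoint `S` (`S = po x x`) commute with `T`. -/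
theorem e_null_left {T : H →L[ℂ] H} : (∀ S, sr (skb T S) = 0) ↔ RealScalar T := by
  constructor
  · intro h
    have h1 : T = adjoint T := by
      have h2 := h ((1 : ℂ) • (1 : H →L[ℂ] H))
      rw [e_scalar_right, norm_one, one_mul, norm_eq_zero, sub_eq_zero] at h2
      exact h2
    have h3 : ∀ x : H, ∃ c : ℂ, T x = c • x := by
      intro x
      rcases eq_or_ne x 0 with rfl | hx
      · exact ⟨0, by simp⟩
      obtain ⟨u, hu, hxu⟩ := exists_unit x hx
      have h4 : IsSelfAdjoint (po u u) := adjoint_po u u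
      have h5 := h (po u u)
      rw [e_test_sa T h4, norm_eq_zero] at h5
      unfold skb at h5
      rw [← h1, sub_eq_zero] at h5
      have h6 := eq_po_smul_of hu h5
      refine ⟨inner ℂ u (T u), ?_⟩
      rw [hxu, map_smul, h6, smul_comm, ← h6]
    obtain ⟨c, hc⟩ := scalar_of_eigen_all T h3
    rcases subsingleton_or_nontrivial H with hH | hH
    · exact ⟨0, ContinuousLinearMap.ext fun x => Subsingleton.elim _ _⟩
    refine ⟨c.re, ?_⟩
    have h2 : adjoint (1 : H →L[ℂ] H) = 1 := star_one _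
    rw [hc, map_smulₛₗ, h2, ← sub_eq_zero, ← sub_smul, smul_eq_zero] at h1
    rcases h1 with h1 | h1
    · rw [sub_eq_zero] at h1
      rw [hc, Complex.conj_eq_iff_re.1 h1.symm]
    · exact absurd h1 one_ne_zero
  · rintro ⟨t, rfl⟩ S
    rw [e_scalar_left, Complex.ofReal_im, abs_zero, mul_zero, zero_mul]

/-- `T = I • po x x`, `e_po_test`-like: `Rt (2 ⟪x, S x⟫) ..= 0` so `⟪x, S x⟫ = 0`. -/
theorem e_null_right {S : H →L[ℂ] H} : (∀ T, sr (skb T S) = 0) ↔ S = 0 := by
  constructor
  · intro h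
    have h1 : ∀ x : H, inner ℂ (S x) x = (0 : ℂ) := by
      intro x
      rcases eq_or_ne x 0 with rfl | hx
      · simp
      obtain ⟨u, hu, hxu⟩ := exists_unit x hx
      have h2 := h (I • po u u)
      rw [e_iP_test S hu] at h2
      have h3 := norm_tr_le (2 * inner ℂ u (S u)) (inner ℂ u (S u) ^ 2 - inner ℂ u (S (S u)))
      rw [h2, mul_zero, norm_le_zero_iff, mul_eq_zero] at h3
      have h4 : inner ℂ u (S u) = (0 : ℂ) := by
        rcases h3 with h3 | h3
        · norm_num at h3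
        · exact h3
      have h5 : inner ℂ (S u) u = (0 : ℂ) := by rw [← inner_conj_symm, h4, map_zero]
      rw [hxu, map_smul, inner_smul_left, inner_smul_right, h5, mul_zero, mul_zero]
    have h2 := (inner_map_self_eq_zero (S : H →ₗ[ℂ] H)).1 h1
    ext x
    exact congrArg (fun A : H →ₗ[ℂ] H => A x) h2
  · rintro rfl T
    have h : skb T (0 : H →L[ℂ] H) = 0 := by
      unfold skb
      rw [mul_zero, zero_mul, sub_zero]
    rw [h, sr_zero]

/-- Hint: `polar` applied to `y + t z`: `⟪z, T² y⟫ ⟪z, y⟫ = ⟪z, T y⟫ ^ 2` for all `y, z`. -/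
theorem e_scalar_iff {T : H →L[ℂ] H} :
    (∀ x : H, ‖x‖ = 1 → sr (skb (po x x) T) = 0) ↔ IsScal T := by
  constructor
  · intro h
    have h1 : ∀ x : H, inner ℂ x (T (T x)) * inner ℂ x x - inner ℂ x (T x) ^ 2 = (0 : ℂ) := by
      intro x
      rcases eq_or_ne x 0 with rfl | hx
      · simp
      obtain ⟨u, hu, hxu⟩ := exists_unit x hx
      have h2 := e_P_test T hu
      rw [h u hu, zero_pow two_ne_zero, eq_comm, norm_eq_zero] at h2
      have h3 : inner ℂ u u = (1 : ℂ) := by rw [inner_self_eq_norm_sq_to_K, hu]; simp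
      rw [hxu]
      simp only [map_smul, inner_smul_left, inner_smul_right, h3]
      linear_combination (conj (‖x‖ : ℂ) * (‖x‖ : ℂ)) ^ 2 * h2
    have h2 : ∀ y z : H, inner ℂ z (T (T y)) * inner ℂ z y - inner ℂ z (T y) ^ 2 = (0 : ℂ) := by
      intro y z
      have h3 := polar
        ![![inner ℂ y (T (T y)) * inner ℂ y y - inner ℂ y (T y) ^ 2,
            inner ℂ y (T (T y)) * inner ℂ z y + inner ℂ z (T (T y)) * inner ℂ y y
              - 2 * inner ℂ y (T y) * inner ℂ z (T y),
            inner ℂ z (T (T y)) * inner ℂ z y - inner ℂ z (T y) ^ 2],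
          ![inner ℂ y (T (T y)) * inner ℂ y z + inner ℂ y (T (T z)) * inner ℂ y y
              - 2 * inner ℂ y (T y) * inner ℂ y (T z),
            inner ℂ y (T (T y)) * inner ℂ z z + inner ℂ y (T (T z)) * inner ℂ z y
              + inner ℂ z (T (T y)) * inner ℂ y z + inner ℂ z (T (T z)) * inner ℂ y y
              - 2 * inner ℂ y (T y) * inner ℂ z (T z) - 2 * inner ℂ y (T z) * inner ℂ z (T y),
            inner ℂ z (T (T y)) * inner ℂ z z + inner ℂ z (T (T z)) * inner ℂ z y
              - 2 * inner ℂ z (T y) * inner ℂ z (T z)],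
          ![inner ℂ y (T (T z)) * inner ℂ y z - inner ℂ y (T z) ^ 2,
            inner ℂ y (T (T z)) * inner ℂ z z + inner ℂ z (T (T z)) * inner ℂ y z
              - 2 * inner ℂ y (T z) * inner ℂ z (T z),
            inner ℂ z (T (T z)) * inner ℂ z z - inner ℂ z (T z) ^ 2]] ?_ 0 2
      · simpa using h3
      · intro t
        have h4 := h1 (y + t • z)
        simp only [map_add, map_smul, inner_add_left, inner_add_right, inner_smul_left,
          inner_smul_right] at h4
        rw [← h4]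
        simp [Fin.sum_univ_three]
        ring
    have h5 : ∀ y : H, ∃ c : ℂ, T y = c • y := by
      intro y
      rcases eq_or_ne y 0 with rfl | hy
      · exact ⟨0, by simp⟩
      have hyy : inner ℂ y y ≠ (0 : ℂ) := inner_self_ne_zero.2 hy
      refine ⟨inner ℂ y (T y) / inner ℂ y y, ?_⟩
      set w : H := T y - (inner ℂ y (T y) / inner ℂ y y) • y with hw
      have h6 : inner ℂ y w = (0 : ℂ) := by
        rw [hw, inner_sub_right, inner_smul_right, div_mul_cancel₀ _ hyy, sub_self]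
      have h6' : inner ℂ w y = (0 : ℂ) := by rw [← inner_conj_symm, h6, map_zero]
      have h7 := h2 y w
      rw [h6', mul_zero, zero_sub, neg_eq_zero, sq_eq_zero_iff] at h7
      have h8 : inner ℂ w w = (0 : ℂ) := by
        have h9 : inner ℂ w w = inner ℂ w (T y) - (inner ℂ y (T y) / inner ℂ y y) * inner ℂ w y := by
          nth_rewrite 2 [hw]
          rw [inner_sub_right, inner_smul_right]
        rw [h9, h7, h6', mul_zero, sub_zero]
      exact sub_eq_zero.1 (inner_self_eq_zero.1 h8)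
    exact scalar_of_eigen_all T h5
  · rintro ⟨z, rfl⟩ x hx
    have h3 : inner ℂ x x = (1 : ℂ) := by rw [inner_self_eq_norm_sq_to_K, hx]; simp
    have h := e_P_test (z • (1 : H →L[ℂ] H)) hx
    have hT : ∀ v : H, (z • (1 : H →L[ℂ] H)) v = z • v := fun v => rfl
    simp only [hT, inner_smul_right, h3] at h
    have h4 : z * (z * 1) - (z * 1) ^ 2 = 0 := by ring
    rw [h4, norm_zero] at h
    exact pow_eq_zero_iff two_ne_zero |>.1 h

/-- Two self-adjoint operators with the same modulus of the quadratic form.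
Hint: product of two real quadratic forms vanishes identically; use real lines `x + t y`. -/
theorem sa_pm {A B : H →L[ℂ] H} (hA : IsSelfAdjoint A) (hB : IsSelfAdjoint B)
    (h : ∀ x : H, ‖x‖ = 1 → ‖inner ℂ x (A x)‖ = ‖inner ℂ x (B x)‖) : A = B ∨ A = -B := by
  classical
  have hreal : ∀ {C : H →L[ℂ] H}, IsSelfAdjoint C → ∀ x, ∃ r : ℝ, inner ℂ x (C x) = (r : ℂ) := by
    intro C hC x
    have h1 : adjoint C = C := hC
    have h2 : conj (inner ℂ x (C x)) = inner ℂ x (C x) := by
      rw [inner_conj_symm, ← adjoint_inner_right, h1]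
    exact Complex.conj_eq_iff_real.1 h2
  have hprod : ∀ x : H, inner ℂ x ((A - B) x) * inner ℂ x ((A + B) x) = (0 : ℂ) := by
    intro x
    rcases eq_or_ne x 0 with rfl | hx
    · simp
    obtain ⟨u, hu, hxu⟩ := exists_unit x hx
    have h1 := h u hu
    obtain ⟨a, ha⟩ := hreal hA u
    obtain ⟨b, hb⟩ := hreal hB u
    rw [ha, hb, Complex.norm_real, Complex.norm_real, Real.norm_eq_abs, Real.norm_eq_abs,
      abs_eq_abs] at h1
    have h2 : (a : ℂ) ^ 2 = (b : ℂ) ^ 2 := by
      rcases h1 with h1 | h1 <;> rw [h1] <;> push_cast <;> ring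
    rw [hxu]
    simp only [map_smul, sub_apply, add_apply, inner_smul_left, inner_smul_right, inner_sub_right,
      inner_add_right, ha, hb]
    linear_combination (conj (‖x‖ : ℂ) * (‖x‖ : ℂ)) ^ 2 * h2
  by_contra hcon
  push Not at hcon
  obtain ⟨h1, h2⟩ := hcon
  have h3 : ∃ x, inner ℂ x ((A - B) x) ≠ (0 : ℂ) := by
    by_contra hc
    push Not at hc
    apply h1
    have h4 : ∀ x : H, inner ℂ (((A - B : H →L[ℂ] H) : H →ₗ[ℂ] H) x) x = (0 : ℂ) := by
      intro x
      rw [← inner_conj_symm]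
      exact (congrArg conj (hc x)).trans (map_zero _)
    have h5 := (inner_map_self_eq_zero _).1 h4
    have h6 : A - B = 0 := by
      ext x
      exact congrArg (fun A : H →ₗ[ℂ] H => A x) h5
    exact sub_eq_zero.1 h6
  have h4 : ∃ x, inner ℂ x ((A + B) x) ≠ (0 : ℂ) := by
    by_contra hc
    push Not at hc
    apply h2
    have h4 : ∀ x : H, inner ℂ (((A + B : H →L[ℂ] H) : H →ₗ[ℂ] H) x) x = (0 : ℂ) := by
      intro x
      rw [← inner_conj_symm]
      exact (congrArg conj (hc x)).trans (map_zero _)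
    have h5 := (inner_map_self_eq_zero _).1 h4
    have h6 : A + B = 0 := by
      ext x
      exact congrArg (fun A : H →ₗ[ℂ] H => A x) h5
    exact eq_neg_of_add_eq_zero_left h6
  obtain ⟨x, hx⟩ := h3
  obtain ⟨y, hy⟩ := h4
  let P : (H →L[ℂ] H) → Polynomial ℂ := fun C =>
    Polynomial.C (inner ℂ x (C x)) +
      Polynomial.C (inner ℂ x (C y) + inner ℂ y (C x)) * Polynomial.X +
      Polynomial.C (inner ℂ y (C y)) * Polynomial.X ^ 2
  have hP : ∀ (C : H →L[ℂ] H) (t : ℝ), (P C).eval (t : ℂ) =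
      inner ℂ (x + (t : ℂ) • y) (C (x + (t : ℂ) • y)) := by
    intro C t
    simp only [P, Polynomial.eval_add, Polynomial.eval_mul, Polynomial.eval_C, Polynomial.eval_X,
      Polynomial.eval_pow, map_add, map_smul, inner_add_left, inner_add_right, inner_smul_left,
      inner_smul_right, Complex.conj_ofReal]
    ring
  have h0 : P (A - B) * P (A + B) = 0 := by
    apply Polynomial.eq_zero_of_infinite_isRoot
    apply Set.Infinite.mono (s := Set.range (fun t : ℝ => (t : ℂ)))
    · rintro _ ⟨t, rfl⟩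
      change Polynomial.eval (t : ℂ) (P (A - B) * P (A + B)) = 0
      rw [Polynomial.eval_mul, hP, hP]
      exact hprod _
    · exact Set.infinite_range_of_injective Complex.ofReal_injective
  have hc0 : ∀ C : H →L[ℂ] H, (P C).coeff 0 = inner ℂ x (C x) := by
    intro C
    simp [P]
  have hc2 : ∀ C : H →L[ℂ] H, (P C).coeff 2 = inner ℂ y (C y) := by
    intro C
    simp [P, Polynomial.coeff_X, Polynomial.coeff_C]
  rcases mul_eq_zero.1 h0 with h5 | h5
  · apply hx
    rw [← hc0, h5, Polynomial.coeff_zero]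
  · apply hy
    rw [← hc2, h5, Polynomial.coeff_zero]

end e

end PR
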