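import Pool.Agent.Helper40.PR.Defs2
import Pool.Agent.Helper54.PR.TK5
import Pool.Agent.Helper54.PR.TK10
import Pool.Agent.Helper55.PR.TK4B

/-! AB1: rank one tests, square roots of rank two operators, examples of linear pairs, transport -/

set_option autoImplicit false

namespace PR

open ContinuousLinearMap

section ab

variable {X : Type*} [NormedAddCommGroup X] [NormedSpace ℂ X] [CompleteSpace X]
variable {Y : Type*} [NormedAddCommGroup Y] [NormedSpace ℂ Y] [CompleteSpace Y]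

namespace AB1Aux

omit [CompleteSpace X] in
theorem rk_sq (y : X) (g : X →L[ℂ] ℂ) : rk y g * rk y g = g y • rk y g := by
  ext z
  simp only [mul_apply_eq_comp, rk_apply, _root_.smul_apply, map_smul,
    smul_eq_mul, smul_smul]
  congr 1
  ring

omit [CompleteSpace X] in
theorem exists_one {y : X} (hy : y ≠ 0) : ∃ e : X →L[ℂ] ℂ, e y = 1 := by
  obtain ⟨f, hf⟩ := exists_dual_fin (v := ![y]) (by
    rw [linearIndependent_unique_iff]
    simpa using hy) (fun _ => 1)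
  exact ⟨f, by simpa using hf 0⟩

omit [CompleteSpace X] in
/-- a square root of a rank one operator with nonzero trace -/
theorem exists_pow {n : ℕ} (hn : n = 1 ∨ n = 2) {y : X} {g : X →L[ℂ] ℂ} (h : g y ≠ 0) :
    ∃ S : X →L[ℂ] X, S ^ n = rk y g := by
  rcases hn with rfl | rfl
  · exact ⟨rk y g, pow_one _⟩
  · obtain ⟨c, hc⟩ := IsAlgClosed.exists_pow_nat_eq (g y)⁻¹ (n := 2) (by norm_num)
    refine ⟨c • rk y g, ?_⟩
    rw [pow_two, smul_mul_smul_comm, rk_sq, smul_smul, ← pow_two, hc, inv_mul_cancel₀ h, one_smul]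

/-- the rank one test, nonzero trace -/
theorem test_ne {n : ℕ} (hn : n = 1 ∨ n = 2) {A B : X →L[ℂ] X} {C : ℂ → (X →L[ℂ] X)}
    (h : ∀ S, PhaseFamR (sr (A * S ^ n)) (sr (B * S ^ n)) (fun s => sr (C s * S ^ n)))
    {y : X} {g : X →L[ℂ] ℂ} (hy : g y ≠ 0) :
    PhaseFam (g (A y)) (g (B y)) (fun s => g (C s y)) := by
  obtain ⟨S, hS⟩ := exists_pow hn hy
  obtain ⟨a, b, h1, h2, h3⟩ := h S
  rw [hS, sr_mul_rk] at h1 h2
  refine ⟨a, b, h1, h2, fun s => ?_⟩
  have h4 := h3 s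
  simp only [hS, sr_mul_rk] at h4
  exact h4

omit [CompleteSpace X] in
theorem exists_both {x w : X} (hx : x ≠ 0) (hw : w ≠ 0) :
    ∃ e : X →L[ℂ] ℂ, e x ≠ 0 ∧ e w ≠ 0 := by
  obtain ⟨e1, h1⟩ := exists_one hx
  obtain ⟨e2, h2⟩ := exists_one hw
  by_cases h3 : e1 w = 0
  · by_cases h4 : e2 x = 0
    · refine ⟨e1 + e2, ?_, ?_⟩
      · simp [h1, h4]
      · simp [h3, h2]
    · exact ⟨e2, h4, by rw [h2]; exact one_ne_zero⟩
  · exact ⟨e1, by rw [h1]; exact one_ne_zero, h3⟩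

omit [CompleteSpace X] in
theorem rk_pow_apply {n : ℕ} (hn : n = 1 ∨ n = 2) (w z : X) (e : X →L[ℂ] ℂ) :
    ((rk w e) ^ n) z = (e z * e w ^ (n - 1)) • w := by
  rcases hn with rfl | rfl
  · simp
  · rw [pow_two, rk_sq]
    simp [smul_smul, mul_comm]

end AB1Aux

open AB1Aux

/-- AB1a. rank one tests. -/
theorem ab_test1 {n : ℕ} (hn : n = 1 ∨ n = 2) {A B : X →L[ℂ] X} {C : ℂ → (X →L[ℂ] X)}
    (h : ∀ S, PhaseFamR (sr (A * S ^ n)) (sr (B * S ^ n)) (fun s => sr (C s * S ^ n)))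
    (y : X) (g : X →L[ℂ] ℂ) : PhaseFam (g (A y)) (g (B y)) (fun s => g (C s y)) := by
  by_cases hy : g y = 0
  · by_cases hy0 : y = 0
    · refine ⟨0, 0, ?_, ?_, ?_⟩ <;> simp [hy0]
    · obtain ⟨e, he⟩ := exists_one hy0
      have hlim : ∀ z : X, Filter.Tendsto
          (fun m : ℕ => (g + ((1 : ℂ) / ((m : ℂ) + 1)) • e) z) Filter.atTop (nhds (g z)) := by
        intro z
        have h1 : Filter.Tendsto (fun m : ℕ => (1 : ℂ) / ((m : ℂ) + 1)) Filter.atTop (nhds 0) :=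
          tendsto_one_div_add_atTop_nhds_zero_nat (𝕜 := ℂ)
        have h2 := (h1.mul_const (e z)).const_add (g z)
        simpa using h2
      refine phase_closed (F := fun s m => (g + ((1 : ℂ) / ((m : ℂ) + 1)) • e) (C s y))
        (U := fun m => (g + ((1 : ℂ) / ((m : ℂ) + 1)) • e) (A y))
        (W := fun m => (g + ((1 : ℂ) / ((m : ℂ) + 1)) • e) (B y)) ?_ (fun s => hlim _)
        (hlim _) (hlim _)
      intro m
      apply test_ne hn h
      have : ((m : ℂ) + 1) ≠ 0 := Nat.cast_add_one_ne_zero m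
      simp [hy, he, this]
  · exact test_ne hn h hy

omit [CompleteSpace X] in
/-- AB1b. rank two operators with invertible Gram matrix are squares. -/
theorem exists_root {n : ℕ} (hn : n = 1 ∨ n = 2) (y1 y2 : X) (g1 g2 : X →L[ℂ] ℂ)
    (h : g1 y1 * g2 y2 - g1 y2 * g2 y1 ≠ 0) : ∃ S : X →L[ℂ] X, S ^ n = rk y1 g1 + rk y2 g2 := by
  rcases hn with rfl | rfl
  · exact ⟨_, pow_one _⟩
  obtain ⟨a, ha⟩ : ∃ a, a = g1 y1 := ⟨_, rfl⟩
  obtain ⟨b, hb⟩ : ∃ b, b = g1 y2 := ⟨_, rfl⟩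
  obtain ⟨c, hc⟩ : ∃ c, c = g2 y1 := ⟨_, rfl⟩
  obtain ⟨d, hd⟩ : ∃ d, d = g2 y2 := ⟨_, rfl⟩
  rw [← ha, ← hb, ← hc, ← hd] at h
  obtain ⟨δ₀, hδ₀⟩ := IsAlgClosed.exists_pow_nat_eq (a * d - b * c) (n := 2) (by norm_num)
  have hδ₀0 : δ₀ ≠ 0 := by
    rintro rfl
    rw [zero_pow (by norm_num)] at hδ₀
    exact h hδ₀.symm
  obtain ⟨δ, hδ, hδτ⟩ : ∃ δ : ℂ, δ ^ 2 = a * d - b * c ∧ a + d + 2 * δ ≠ 0 := by
    by_cases h1 : a + d + 2 * δ₀ = 0
    · refine ⟨-δ₀, by rw [neg_sq, hδ₀], fun h2 => hδ₀0 ?_⟩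
      linear_combination (h1 - h2) / 4
    · exact ⟨δ₀, hδ₀, h1⟩
  have hδ0 : δ ≠ 0 := by
    rintro rfl
    rw [zero_pow (by norm_num)] at hδ
    exact h hδ.symm
  obtain ⟨t, ht⟩ := IsAlgClosed.exists_pow_nat_eq (a + d + 2 * δ) (n := 2) (by norm_num)
  have ht0 : t ≠ 0 := by
    rintro rfl
    rw [zero_pow (by norm_num)] at ht
    exact hδτ ht.symm
  obtain ⟨k, hk⟩ : ∃ k : ℂ, k * δ * t = 1 := ⟨(δ * t)⁻¹, by
    rw [mul_assoc, inv_mul_cancel₀ (mul_ne_zero hδ0 ht0)]⟩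
  have hk2 : k ^ 2 * δ ^ 2 * (a + d + 2 * δ) = 1 := by
    rw [← ht]
    linear_combination (k * δ * t + 1) * hk
  refine ⟨(k * (δ + d)) • rk y1 g1 + (-(k * b)) • rk y1 g2 + (-(k * c)) • rk y2 g1 +
    (k * (δ + a)) • rk y2 g2, ?_⟩
  have happ : ∀ z, ((k * (δ + d)) • rk y1 g1 + (-(k * b)) • rk y1 g2 + (-(k * c)) • rk y2 g1 +
      (k * (δ + a)) • rk y2 g2) z =
      (k * (δ + d) * g1 z - k * b * g2 z) • y1 + (-(k * c) * g1 z + k * (δ + a) * g2 z) • y2 := by
    intro z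
    simp only [_root_.add_apply, _root_.smul_apply, rk_apply, smul_smul]
    module
  ext z
  rw [pow_two, mul_apply_eq_comp, happ, happ]
  simp only [map_add, map_smul, smul_eq_mul, _root_.add_apply, rk_apply, ← ha, ← hb,
    ← hc, ← hd]
  congr 1
  · congr 1
    linear_combination g1 z * hk2 - k ^ 2 * (2 * δ * g1 z + d * g1 z - b * g2 z) * hδ
  · congr 1
    linear_combination g2 z * hk2 - k ^ 2 * (2 * δ * g2 z + a * g2 z - c * g1 z) * hδ

/-- AB5. examples of linear pairs. -/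
theorem lpab_left {n : ℕ} (hn : n = 1 ∨ n = 2) {x : X} (hx : x ≠ 0) {f g : X →L[ℂ] ℂ}
    (hfg : LinearIndependent ℂ ![f, g]) : LPab n (rk x f) (rk x g) := by
  have key : ∀ (f : X →L[ℂ] ℂ) (T : X →L[ℂ] X), sr (rk x f * T) = ‖f (T x)‖ := fun f T => by
    rw [sr_comm, sr_mul_rk]
  have hsep : ∀ f g : X →L[ℂ] ℂ, LinearIndependent ℂ ![f, g] →
      ∃ S : X →L[ℂ] X, sr (rk x f * S ^ n) = 0 ∧ sr (rk x g * S ^ n) ≠ 0 := by
    intro f g hfg
    obtain ⟨w, hfw, hgw⟩ : ∃ w, f w = 0 ∧ g w ≠ 0 := by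
      by_contra hcon
      push Not at hcon
      rw [LinearIndependent.pair_iff] at hfg
      by_cases hf : f = 0
      · have := hfg 1 0 (by simp [hf])
        exact one_ne_zero this.1
      · obtain ⟨v, hv⟩ : ∃ v, f v ≠ 0 := by
          by_contra hf'
          push Not at hf'
          exact hf (ContinuousLinearMap.ext hf')
        have h1 : (g v / f v) • f + (-1 : ℂ) • g = 0 := by
          ext z
          have h2 := hcon (z - (f z / f v) • v) (by
            rw [map_sub, map_smul, smul_eq_mul, div_mul_cancel₀ _ hv, sub_self])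
          rw [map_sub, map_smul, smul_eq_mul] at h2
          simp only [_root_.add_apply, _root_.smul_apply, smul_eq_mul,
            _root_.zero_apply]
          field_simp at h2 ⊢
          linear_combination -h2
        have := (hfg _ _ h1).2
        norm_num at this
    have hw : w ≠ 0 := by
      rintro rfl
      exact hgw (map_zero g)
    obtain ⟨e, hex, hew⟩ := exists_both hx hw
    refine ⟨rk w e, ?_, ?_⟩
    · rw [key, rk_pow_apply hn, map_smul, hfw, smul_zero, norm_zero]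
    · rw [key, rk_pow_apply hn, map_smul, smul_eq_mul, norm_ne_zero_iff]
      exact mul_ne_zero (mul_ne_zero hex (pow_ne_zero _ hew)) hgw
  refine ⟨fun s => rk x (f + s • g), fun S => ⟨f ((S ^ n) x), g ((S ^ n) x), key _ _, key _ _,
    fun s => ?_⟩, hsep f g hfg, ?_⟩
  · change sr (rk x (f + s • g) * S ^ n) = _
    rw [key]
    rfl
  · apply hsep g f
    rw [LinearIndependent.pair_iff] at hfg ⊢
    intro s t hst
    have := hfg t s (by rw [add_comm]; exact hst)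
    exact ⟨this.2, this.1⟩

theorem lpab_right {n : ℕ} (hn : n = 1 ∨ n = 2) {x y : X} (hxy : LinearIndependent ℂ ![x, y])
    {f : X →L[ℂ] ℂ} (hf : f ≠ 0) : LPab n (rk x f) (rk y f) := by
  have key : ∀ (x : X) (T : X →L[ℂ] X), sr (rk x f * T) = ‖f (T x)‖ := fun x T => by
    rw [sr_comm, sr_mul_rk]
  obtain ⟨w₀, hw₀⟩ : ∃ v, f v ≠ 0 := by
    by_contra hf'
    push Not at hf'
    exact hf (ContinuousLinearMap.ext hf')
  have hsep : ∀ x y : X, LinearIndependent ℂ ![x, y] →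
      ∃ S : X →L[ℂ] X, sr (rk x f * S ^ n) = 0 ∧ sr (rk y f * S ^ n) ≠ 0 := by
    intro x y hxy
    obtain ⟨e, he⟩ := exists_dual_fin hxy ![0, 1]
    have hex : e x = 0 := by simpa using he 0
    have hey : e y = 1 := by simpa using he 1
    obtain ⟨w, hfw, hew⟩ : ∃ w, f w ≠ 0 ∧ e w ≠ 0 := by
      by_cases h1 : e w₀ = 0
      · by_cases h2 : f (w₀ + y) = 0
        · refine ⟨w₀ - y, ?_, ?_⟩
          · intro h3
            rw [map_add] at h2
            rw [map_sub] at h3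
            apply hw₀
            linear_combination (h2 + h3) / 2
          · rw [map_sub, h1, hey]; norm_num
        · refine ⟨w₀ + y, h2, ?_⟩
          rw [map_add, h1, hey]; norm_num
      · exact ⟨w₀, hw₀, h1⟩
    refine ⟨rk w e, ?_, ?_⟩
    · rw [key, rk_pow_apply hn, hex, zero_mul, zero_smul, map_zero, norm_zero]
    · rw [key, rk_pow_apply hn, map_smul, smul_eq_mul, norm_ne_zero_iff, hey, one_mul]
      exact mul_ne_zero (pow_ne_zero _ hew) hfw
  refine ⟨fun s => rk (x + s • y) f, fun S => ⟨f ((S ^ n) x), f ((S ^ n) y), key _ _, key _ _,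
    fun s => ?_⟩, hsep x y hxy, ?_⟩
  · change sr (rk (x + s • y) f * S ^ n) = _
    rw [key, map_add, map_smul, map_add, map_smul, smul_eq_mul]
  · apply hsep y x
    rw [LinearIndependent.pair_iff] at hxy ⊢
    intro s t hst
    have := hxy t s (by rw [add_comm]; exact hst)
    exact ⟨this.2, this.1⟩

omit [CompleteSpace X] [CompleteSpace Y] in
/-- AB6. transport (preimages of the family, preimages of the test operators). -/
theorem lpab_map {n : ℕ} {φ : (X →L[ℂ] X) → (Y →L[ℂ] Y)} (hs : Function.Surjective φ)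
    (h : ∀ T S, sr (φ T * φ S ^ n) = sr (T * S ^ n)) (A B : X →L[ℂ] X) :
    LPab n A B ↔ LPab n (φ A) (φ B) := by
  constructor
  · rintro ⟨C, h1, ⟨S1, h2, h3⟩, ⟨S2, h4, h5⟩⟩
    refine ⟨fun s => φ (C s), fun S' => ?_, ⟨φ S1, ?_, ?_⟩, ⟨φ S2, ?_, ?_⟩⟩
    · obtain ⟨S, rfl⟩ := hs S'
      have := h1 S
      simp only [h]
      exact this
    · rw [h]; exact h2
    · rw [h]; exact h3
    · rw [h]; exact h4
    · rw [h]; exact h5
  · rintro ⟨C', h1, ⟨S1', h2, h3⟩, ⟨S2', h4, h5⟩⟩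
    obtain ⟨S1, rfl⟩ := hs S1'
    obtain ⟨S2, rfl⟩ := hs S2'
    choose C hC using fun s => hs (C' s)
    rw [h] at h2 h3 h4 h5
    refine ⟨C, fun S => ?_, ⟨S1, h2, h3⟩, ⟨S2, h4, h5⟩⟩
    have := h1 (φ S)
    simp only [← hC, h] at this
    exact this

end ab

end PR
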